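import Pool.Agent.TH990.FA.Defs2
import Pool.Agent.H12R2.Sep.H4
import Pool.Agent.H12R2.Sep.WinHalf

set_option autoImplicit false

namespace Pool.Agent.TH55.FA

open H974 Pool.Agent.TH990.FA

open H12S (Dir hbE segD rimE H4 H3g Crs Win)

theorem rad_le {c v : Vtx} {k : ℤ} : rad c v ≤ k ↔
    (-k ≤ v.1 - c.1 ∧ v.1 - c.1 ≤ k) ∧ (-k ≤ v.2 - c.2 ∧ v.2 - c.2 ≤ k) := by
  unfold rad; rw [max_le_iff, abs_le, abs_le]

theorem mem_An {c v : Vtx} {d k : ℕ} : v ∈ An c d k ↔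
    (¬ ((-(d:ℤ) ≤ v.1 - c.1 ∧ v.1 - c.1 ≤ d) ∧ (-(d:ℤ) ≤ v.2 - c.2 ∧ v.2 - c.2 ≤ d))) ∧
    ((-(k:ℤ) ≤ v.1 - c.1 ∧ v.1 - c.1 ≤ k) ∧ (-(k:ℤ) ≤ v.2 - c.2 ∧ v.2 - c.2 ≤ k)) := by
  change (d : ℤ) < rad c v ∧ rad c v ≤ k ↔ _
  rw [← rad_le, ← rad_le, not_le]

theorem mem_Rg {c v : Vtx} {k : ℕ} (h : v ∈ Rg c k) :
    (v.1 - c.1 = k ∨ v.1 - c.1 = -k ∨ v.2 - c.2 = k ∨ v.2 - c.2 = -k) := by
  have h1 : rad c v = k := h
  unfold rad at h1
  rcases max_choice |v.1 - c.1| |v.2 - c.2| with h2 | h2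
  · rw [h2] at h1
    rcases abs_choice (v.1 - c.1) with h3 | h3 <;> omega
  · rw [h2] at h1
    rcases abs_choice (v.2 - c.2) with h3 | h3 <;> omega

/-- A path which leaves `U` without crossing the forbidden part of its boundary meets `B`. -/
theorem exit_gen (G H : Set Edg) (U B : Set Vtx)
    (h1 : ∀ e ∈ G, src e ∈ U → src e ∉ B → e ∈ H ∧ tgt e ∈ U)
    (h2 : ∀ e ∈ G, tgt e ∈ U → tgt e ∉ B → e ∈ H ∧ src e ∈ U)
    {u v : Vtx} (hu : u ∈ U) (h : Reach G u v) (hv : v ∉ U ∨ v ∈ B) :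
    ∃ w ∈ B, Reach (G ∩ H) u w := by
  have key : ∀ w, Reach G u w → (∃ w ∈ B, Reach (G ∩ H) u w) ∨
      (w ∈ U ∧ w ∉ B ∧ Reach (G ∩ H) u w) := by
    intro w hw
    induction hw with
    | refl =>
      by_cases hb : u ∈ B
      · exact Or.inl ⟨u, hb, Reach.refl _ _⟩
      · exact Or.inr ⟨hu, hb, Reach.refl _ _⟩
    | @tail w w' _ hs ih =>
      rcases ih with ih | ⟨i1, i2, i3⟩
      · exact Or.inl ih
      · obtain ⟨e, he, hc⟩ := hs
        have hst : e ∈ H ∧ w' ∈ U := by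
          rcases hc with ⟨h3, h4⟩ | ⟨h3, h4⟩
          · rw [← h4]; exact h1 e he (h3 ▸ i1) (h3 ▸ i2)
          · rw [← h3]; exact h2 e he (h4 ▸ i1) (h4 ▸ i2)
        have hr : Reach (G ∩ H) u w' := i3.trans (Adj.reach ⟨e, ⟨he, hst.1⟩, hc⟩)
        by_cases hb : w' ∈ B
        · exact Or.inl ⟨w', hb, hr⟩
        · exact Or.inr ⟨hst.2, hb, hr⟩
  rcases key v h with h3 | ⟨h3, h4, -⟩
  · exact h3
  · rcases hv with h5 | h5
    · exact absurd h3 h5
    · exact absurd h5 h4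

/-- the coordinate along the side -/
def lat (d : Dir) (t : Vtx) : ℤ :=
  match d with
  | Dir.up => t.1
  | Dir.dn => t.1
  | Dir.rt => t.2
  | Dir.lf => t.2

/-- the point of the side with given coordinate -/
def ctr (d : Dir) (c : Vtx) (m : ℕ) (y : ℤ) : ℤ × ℤ :=
  match d with
  | Dir.up => (y, c.2 + m + 1)
  | Dir.dn => (y, c.2 - m - 1)
  | Dir.rt => (c.1 + m + 1, y)
  | Dir.lf => (c.1 - m - 1, y)

/-- the point is on the side -/
def onS (d : Dir) (c : Vtx) (m : ℕ) (t : Vtx) : Prop :=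
  match d with
  | Dir.up => t.2 = c.2 + m + 1 ∧ -(m:ℤ) ≤ t.1 - c.1 ∧ t.1 - c.1 ≤ m
  | Dir.dn => t.2 = c.2 - m - 1 ∧ -(m:ℤ) ≤ t.1 - c.1 ∧ t.1 - c.1 ≤ m
  | Dir.rt => t.1 = c.1 + m + 1 ∧ -(m:ℤ) ≤ t.2 - c.2 ∧ t.2 - c.2 ≤ m
  | Dir.lf => t.1 = c.1 - m - 1 ∧ -(m:ℤ) ≤ t.2 - c.2 ∧ t.2 - c.2 ≤ m

theorem tch_side {c : Vtx} {m : ℕ} {t : Vtx} (h : t ∈ Pool.Agent.TH990.FA.Tch c m) :
    ∃ d, onS d c m t := by
  obtain ⟨h1, w, h2, h3⟩ := h
  rw [← not_le, rad_le] at h1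
  rw [rad_le] at h2
  obtain ⟨t1, t2⟩ := t
  obtain ⟨w1, w2⟩ := w
  unfold Nb at h3
  simp only at h1 h2 h3
  rcases h3 with ⟨h3, h4 | h4⟩ | ⟨h3, h4 | h4⟩
  · exact ⟨Dir.up, by unfold onS; simp only; omega⟩
  · exact ⟨Dir.dn, by unfold onS; simp only; omega⟩
  · exact ⟨Dir.rt, by unfold onS; simp only; omega⟩
  · exact ⟨Dir.lf, by unfold onS; simp only; omega⟩

/-- the vertices of the half ball -/
def hbV (d : Dir) (x0 y0 : ℤ) (ρ : ℕ) : Set Vtx :=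
  match d with
  | Dir.up => {v | inR (x0 - ρ) (x0 + ρ) y0 (y0 + ρ) v}
  | Dir.dn => {v | inR (x0 - ρ) (x0 + ρ) (y0 - ρ) y0 v}
  | Dir.rt => {v | inR x0 (x0 + ρ) (y0 - ρ) (y0 + ρ) v}
  | Dir.lf => {v | inR (x0 - ρ) x0 (y0 - ρ) (y0 + ρ) v}

theorem hbE_sub (d : Dir) (c : Vtx) (m ρ : ℕ) (y0 : ℤ) (hρ : ρ + 1 ≤ m)
    (hy1 : lat d c - m ≤ y0 - ρ) (hy2 : y0 + ρ ≤ lat d c + m) :
    ∀ e ∈ hbE d (ctr d c m y0).1 (ctr d c m y0).2 ρ, e ∈ EV (An c m (2 * m)) := by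
  rintro ⟨x, y, b⟩ he
  unfold EV
  change src (x, y, b) ∈ An c m (2 * m) ∧ tgt (x, y, b) ∈ An c m (2 * m)
  rw [mem_An, mem_An]
  push_cast
  cases d <;> cases b <;>
    simp only [hbE, ctr, lat, mem_RE_true, mem_RE_false, src_mk, tgt_true, tgt_false] at he hy1 hy2 ⊢ <;>
    omega

theorem H4_of (d : Dir) (c : Vtx) (m r ρ : ℕ) (y0 : ℤ) (F : Set Edg) (hρ : ρ + 1 ≤ m)
    (hy1 : lat d c - m ≤ y0 - ρ) (hy2 : y0 + ρ ≤ lat d c + m) (hr : r ≤ ρ)
    {t1 t2 : Vtx} (h1 : onS d c m t1) (h2 : onS d c m t2)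
    (l1 : y0 - r ≤ lat d t1) (l1' : lat d t1 ≤ y0 + r)
    (l2 : y0 - r ≤ lat d t2) (l2' : lat d t2 ≤ y0 + r)
    (a1 : ∃ w ∈ Rg c (2 * m), w ∈ Cl (An c m (2 * m)) F t1)
    (a2 : ∃ w ∈ Rg c (2 * m), w ∈ Cl (An c m (2 * m)) F t2)
    (hn : t2 ∉ Cl (An c m (2 * m)) F t1) :
    H4 d (ctr d c m y0).1 (ctr d c m y0).2 r ρ F := by
  have hsub := hbE_sub d c m ρ y0 hρ hy1 hy2
  have arm : ∀ t : Vtx, onS d c m t → y0 - r ≤ lat d t → lat d t ≤ y0 + r →
      (∃ w ∈ Rg c (2 * m), w ∈ Cl (An c m (2 * m)) F t) →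
      ∃ b ∈ rimE d (ctr d c m y0).1 (ctr d c m y0).2 ρ,
        Reach (F ∩ ↑(hbE d (ctr d c m y0).1 (ctr d c m y0).2 ρ)) t b := by
    intro t ht k1 k2 ⟨w, hw, hwc⟩
    have hwr := mem_Rg hw
    push_cast at hwr
    obtain ⟨b, hb, hbr⟩ := exit_gen (F ∩ EV (An c m (2 * m)))
      (↑(hbE d (ctr d c m y0).1 (ctr d c m y0).2 ρ) : Set Edg)
      (hbV d (ctr d c m y0).1 (ctr d c m y0).2 ρ) (rimE d (ctr d c m y0).1 (ctr d c m y0).2 ρ)
      (by
        rintro ⟨x, y, b⟩ ⟨-, he1, he2⟩ hs hs'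
        rw [mem_An] at he1 he2
        push_cast at he1 he2
        cases d <;> cases b <;>
          simp only [hbE, ctr, lat, hbV, rimE, inR, mem_RE_true, mem_RE_false, src_mk, tgt_true,
            tgt_false, Finset.mem_coe, Set.mem_ofPred_eq] at he1 he2 hs hs' hy1 hy2 ⊢ <;>
          omega)
      (by
        rintro ⟨x, y, b⟩ ⟨-, he1, he2⟩ hs hs'
        rw [mem_An] at he1 he2
        push_cast at he1 he2
        cases d <;> cases b <;>
          simp only [hbE, ctr, lat, hbV, rimE, inR, mem_RE_true, mem_RE_false, src_mk, tgt_true,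
            tgt_false, Finset.mem_coe, Set.mem_ofPred_eq] at he1 he2 hs hs' hy1 hy2 ⊢ <;>
          omega)
      (u := t) (v := w)
      (by
        cases d <;> simp only [ctr, lat, hbV, inR, onS, Set.mem_ofPred_eq] at ht k1 k2 hy1 hy2 ⊢ <;>
          omega) hwc
      (by
        by_cases hU : w ∈ hbV d (ctr d c m y0).1 (ctr d c m y0).2 ρ
        · right
          cases d <;> simp only [ctr, lat, hbV, rimE, inR, Set.mem_ofPred_eq] at hU hy1 hy2 ⊢ <;>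
            omega
        · exact Or.inl hU)
    refine ⟨b, hb, hbr.mono ?_⟩
    rintro e ⟨⟨he1, -⟩, he2⟩
    exact ⟨he1, he2⟩
  refine ⟨t1, ?_, t2, ?_, arm t1 h1 l1 l1' a1, arm t2 h2 l2 l2' a2, ?_⟩
  · cases d <;> simp only [ctr, lat, segD, onS, Set.mem_ofPred_eq] at h1 l1 l1' ⊢ <;> omega
  · cases d <;> simp only [ctr, lat, segD, onS, Set.mem_ofPred_eq] at h2 l2 l2' ⊢ <;> omega
  · intro hre
    apply hn
    refine Reach.mono ?_ hre
    rintro e ⟨he1, he2⟩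
    exact ⟨he1, hsub e he2⟩

/-- the corners -/
def cnr (c : Vtx) (m : ℕ) (s : Bool × Bool) : ℤ × ℤ :=
  (c.1 + (if s.1 then (m + 1 : ℤ) else -(m + 1 : ℤ)), c.2 + (if s.2 then (m + 1 : ℤ) else -(m + 1 : ℤ)))

/-- the grid indices of the half balls along a side -/
noncomputable def JJ (c : Vtx) (m l ρ : ℕ) (d : Dir) : Finset ℤ :=
  (Finset.Icc ((lat d c - m) / l) ((lat d c + m) / l)).filter
    (fun i => lat d c - m ≤ l * i - ρ ∧ l * i + ρ ≤ lat d c + m)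

theorem near_imp (c : Vtx) (m l ρ : ℕ) (hl : 1 ≤ l) (hlm : l ≤ m) (hρ : ρ + 1 ≤ m)
    (hlρ : 2 * l ≤ ρ) (F : Set Edg) (h : Near c m (2 * m) l F) :
    (∃ d ∈ (Finset.univ : Finset Dir), ∃ i ∈ JJ c m l ρ d,
      H4 d (ctr d c m (l * i)).1 (ctr d c m (l * i)).2 (2 * l) ρ F) ∨
    (∃ s ∈ (Finset.univ : Finset (Bool × Bool)), Crs (cnr c m s).1 (cnr c m s).2 (ρ + l + 2) (m - 1) F) := by
  obtain ⟨t1, ht1, t2, ht2, hcl, a1, a2, hn⟩ := h
  obtain ⟨d, hd⟩ := tch_side ht1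
  obtain ⟨d', hd'⟩ := tch_side ht2
  have hl0 : (0 : ℤ) < l := by exact_mod_cast hl
  obtain ⟨hc1, hc2⟩ := hcl
  rw [abs_le] at hc1 hc2
  by_cases hfit : lat d c - m + l + ρ ≤ lat d t1 ∧ lat d t1 ≤ lat d c + m - l - ρ
  · left
    obtain ⟨hf1, hf2⟩ := hfit
    have hdd : d' = d := by
      cases d <;> cases d' <;> first | rfl | (exfalso; simp only [onS, lat] at hd hd' hf1 hf2; omega)
    rw [hdd] at hd'
    set i : ℤ := lat d t1 / l with hi
    have e1 : (l:ℤ) * i ≤ lat d t1 := by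
      have := Int.mul_ediv_self_le (x := lat d t1) (k := l) hl0.ne'
      exact this
    have e2 : lat d t1 < l * i + l := by
      have := Int.lt_mul_ediv_self_add (x := lat d t1) (k := l) hl0
      exact this
    have e3 : lat d t2 - lat d t1 ≤ l ∧ -(l:ℤ) ≤ lat d t2 - lat d t1 := by
      cases d <;> simp only [lat] <;> omega
    refine ⟨d, Finset.mem_univ _, i, ?_, ?_⟩
    · unfold JJ
      rw [Finset.mem_filter, Finset.mem_Icc]
      refine ⟨⟨?_, ?_⟩, by omega, by omega⟩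
      · exact Int.ediv_le_ediv hl0 (by omega)
      · exact Int.ediv_le_ediv hl0 (by omega)
    · apply H4_of d c m (2 * l) ρ (l * i) F hρ (by omega) (by omega) hlρ hd hd' _ _ _ _ a1 a2 hn
      all_goals push_cast; omega
  · right
    obtain ⟨w, hw, hwc⟩ := a1
    have hwr := mem_Rg hw
    push_cast at hwr
    have hre : Reach F t1 w := hwc.mono Set.inter_subset_left
    have hlat : lat d t1 < lat d c - m + l + ρ ∨ lat d c + m - l - ρ < lat d t1 := by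
      by_contra hcon
      push Not at hcon
      exact hfit ⟨hcon.1, hcon.2⟩
    have key : ∃ s : Bool × Bool, inR ((cnr c m s).1 - (ρ + l + 2 : ℕ)) ((cnr c m s).1 + (ρ + l + 2 : ℕ))
        ((cnr c m s).2 - (ρ + l + 2 : ℕ)) ((cnr c m s).2 + (ρ + l + 2 : ℕ)) t1 := by
      rcases hlat with h1 | h1
      · cases d
        · exact ⟨(false, true), by simp only [onS, lat, cnr, inR] at hd h1 ⊢; push_cast; simp; omega⟩
        · exact ⟨(false, false), by simp only [onS, lat, cnr, inR] at hd h1 ⊢; push_cast; simp; omega⟩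
        · exact ⟨(true, false), by simp only [onS, lat, cnr, inR] at hd h1 ⊢; push_cast; simp; omega⟩
        · exact ⟨(false, false), by simp only [onS, lat, cnr, inR] at hd h1 ⊢; push_cast; simp; omega⟩
      · cases d
        · exact ⟨(true, true), by simp only [onS, lat, cnr, inR] at hd h1 ⊢; push_cast; simp; omega⟩
        · exact ⟨(true, false), by simp only [onS, lat, cnr, inR] at hd h1 ⊢; push_cast; simp; omega⟩
        · exact ⟨(true, true), by simp only [onS, lat, cnr, inR] at hd h1 ⊢; push_cast; simp; omega⟩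
        · exact ⟨(false, true), by simp only [onS, lat, cnr, inR] at hd h1 ⊢; push_cast; simp; omega⟩
    obtain ⟨s, hs⟩ := key
    refine ⟨s, Finset.mem_univ _, t1, w, hs, ?_, hre⟩
    obtain ⟨s1, s2⟩ := s
    have hm1 : ((m - 1 : ℕ) : ℤ) = (m : ℤ) - 1 := by omega
    rw [hm1]
    cases s1 <;> cases s2 <;> simp only [cnr] <;> simp <;> omega

theorem card_JJ (c : Vtx) (m l ρ M : ℕ) (hl : 1 ≤ l) (hM : 1 ≤ M) (hm : m < 2 * (l * M)) (d : Dir) :
    ((JJ c m l ρ d).card : ℝ) ≤ 6 * M := by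
  have hl0 : (0 : ℤ) < l := by exact_mod_cast hl
  have h1 : (JJ c m l ρ d).card ≤ (Finset.Icc ((lat d c - m) / l) ((lat d c + m) / l)).card :=
    Finset.card_filter_le _ _
  rw [Int.card_Icc] at h1
  set a := (lat d c - m) / (l:ℤ) with ha
  set b := (lat d c + m) / (l:ℤ) with hb
  have e1 : (l:ℤ) * b ≤ lat d c + m := Int.mul_ediv_self_le (x := lat d c + m) (k := l) hl0.ne'
  have e2 : lat d c - m < l * a + l := Int.lt_mul_ediv_self_add (x := lat d c - m) (k := l) hl0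
  have e3 : (l:ℤ) * (b - a) < 4 * (l * M) + l := by
    have : ((m:ℕ):ℤ) < 2 * (l * M) := by exact_mod_cast hm
    have h3 : (l:ℤ) * (b - a) = l * b - l * a := by ring
    rw [h3]
    linarith
  have e4 : b - a < 4 * M + 1 := by
    have h4 : (l:ℤ) * (b - a) < l * (4 * M + 1) := by linarith
    exact lt_of_mul_lt_mul_left h4 hl0.le
  have e5 : (b + 1 - a).toNat ≤ 6 * M := by omega
  exact_mod_cast h1.trans e5

theorem ex_small (C c a δ : ℝ) (hc : 0 < c) (hδ : 0 < δ) (N : ℕ) :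
    ∃ K : ℕ, N ≤ K ∧ C * (a / (K:ℝ)) ^ c ≤ δ := by
  have h1 : Filter.Tendsto (fun K : ℕ => C * (a / (K:ℝ)) ^ c) Filter.atTop (nhds (C * 0 ^ c)) := by
    apply Filter.Tendsto.const_mul
    exact (Real.continuousAt_rpow_const 0 c (Or.inr hc.le)).tendsto.comp
      (tendsto_const_div_atTop_nhds_zero_nat a)
  rw [Real.zero_rpow hc.ne', mul_zero] at h1
  have h2 := h1.eventually (eventually_le_nhds hδ)
  obtain ⟨K, hK⟩ := (h2.and (Filter.eventually_ge_atTop N)).exists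
  exact ⟨K, hK.2, hK.1⟩

theorem near : ∀ δ : ℝ, 0 < δ → ∃ M : ℕ, 1 ≤ M ∧ ∀ (c : Vtx) (m : ℕ), M ≤ m →
    ∀ S : Finset Edg, (∀ e ∈ EV (An c m (2 * m)), e ∈ S) →
      Pr (fun _ => (1/2:ℝ)) S (fun F => Near c m (2 * m) (m / M) ↑F) ≤ δ := by
  intro δ hδ
  obtain ⟨κ, hκ, hwin⟩ := H12S.win_half
  obtain ⟨C4, c4, hC4, hc4, H4b⟩ := H12S.H4_bound κ hκ
  obtain ⟨C1, c1, hC1, hc1, Arm⟩ := H12S.win_arm_of
    (fun {q κ n} h {m} hm hmn c1 c2 S => H12S.win_blk h hm hmn c1 c2 S) κ hκ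
  obtain ⟨K, hK, hKδ⟩ := ex_small (4 * C1) c1 8 (δ / 2) hc1 (by linarith) 8
  obtain ⟨J, hJ, hJδ⟩ := ex_small (48 * K * C4) c4 2 (δ / 2) hc4 (by linarith) 2
  have hJK : 1 ≤ J * K := Nat.mul_pos (by omega) (by omega)
  refine ⟨J * K, hJK, ?_⟩
  intro c m hm S hS
  have hok : Ok (fun _ : Edg => (1/2:ℝ)) := (hwin 1).ok
  set M := J * K with hM
  set l := m / M with hl
  have hl1 : 1 ≤ l := (Nat.one_le_div_iff hJK).2 hm
  have hlM : l * M ≤ m := Nat.div_mul_le_self m M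
  have hlM2 : m < 2 * (l * M) := by
    have h1 : m < M * (m / M + 1) := Nat.lt_mul_div_succ m hJK
    rw [← hl] at h1
    have h2 : M * (l + 1) ≤ 2 * (l * M) := by nlinarith
    omega
  have hlJK : l * J * K ≤ m := by
    have : l * J * K = l * M := by rw [hM]; ring
    omega
  have hlJ8 : 8 * (l * J) ≤ m := by
    have : l * J * 8 ≤ l * J * K := Nat.mul_le_mul_left _ hK
    omega
  have hlJ1 : 2 * l ≤ l * J := by nlinarith
  set ρ := l * J with hρ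
  have hρm : ρ + 1 ≤ m := by omega
  have hlm : l ≤ m := by omega
  have hρ0 : (0:ℝ) < ρ := by
    have : 0 < ρ := by omega
    exact_mod_cast this
  have hl0 : (0:ℝ) < l := by exact_mod_cast hl1
  have hJ0 : (0:ℝ) < J := by
    have : 0 < J := by omega
    exact_mod_cast this
  have hK0 : (0:ℝ) < K := by
    have : 0 < K := by omega
    exact_mod_cast this
  -- the events
  have step1 : Pr (fun _ => (1/2:ℝ)) S (fun F => Near c m (2 * m) l ↑F) ≤
      Pr (fun _ => (1/2:ℝ)) S (fun F => ∃ d ∈ (Finset.univ : Finset Dir), ∃ i ∈ JJ c m l ρ d,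
        H4 d (ctr d c m (l * i)).1 (ctr d c m (l * i)).2 (2 * l) ρ (↑F : Set Edg)) +
      Pr (fun _ => (1/2:ℝ)) S (fun F => ∃ s ∈ (Finset.univ : Finset (Bool × Bool)),
        Crs (cnr c m s).1 (cnr c m s).2 (ρ + l + 2) (m - 1) (↑F : Set Edg)) := by
    refine le_trans (Pr_mono hok ?_) (Pr_or_le hok S _ _)
    intro F _ hF
    exact near_imp c m l ρ hl1 hlm hρm hlJ1 _ hF
  -- the half balls
  have hH : ∀ d : Dir, ∀ i ∈ JJ c m l ρ d, Pr (fun _ => (1/2:ℝ)) S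
      (fun F => H4 d (ctr d c m (l * i)).1 (ctr d c m (l * i)).2 (2 * l) ρ (↑F : Set Edg)) ≤
      C4 * (2 / (J:ℝ)) ^ (1 + c4) := by
    intro d i hi
    unfold JJ at hi
    rw [Finset.mem_filter] at hi
    have hsub : hbE d (ctr d c m (l * i)).1 (ctr d c m (l * i)).2 ρ ⊆ S := by
      intro e he
      exact hS e (hbE_sub d c m ρ (l * i) hρm (by omega) (by omega) e he)
    have h1 := H4b (1/2) ρ (hwin ρ) (2 * l) ρ (by omega) hlJ1 le_rfl d _ _ S hsub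
    have h2 : (((2 * l : ℕ) : ℝ) / (ρ : ℝ)) = 2 / J := by
      rw [hρ]; push_cast; field_simp
    rw [h2] at h1
    exact h1
  have step2 : Pr (fun _ => (1/2:ℝ)) S (fun F => ∃ d ∈ (Finset.univ : Finset Dir), ∃ i ∈ JJ c m l ρ d,
        H4 d (ctr d c m (l * i)).1 (ctr d c m (l * i)).2 (2 * l) ρ (↑F : Set Edg)) ≤ δ / 2 := by
    refine (Pr_exists_le hok S _ (fun d F => ∃ i ∈ JJ c m l ρ d,
        H4 d (ctr d c m (l * i)).1 (ctr d c m (l * i)).2 (2 * l) ρ (↑F : Set Edg))).trans ?_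
    have h3 : ∀ d ∈ (Finset.univ : Finset Dir), Pr (fun _ => (1/2:ℝ)) S (fun F => ∃ i ∈ JJ c m l ρ d,
        H4 d (ctr d c m (l * i)).1 (ctr d c m (l * i)).2 (2 * l) ρ (↑F : Set Edg)) ≤
        6 * M * (C4 * (2 / (J:ℝ)) ^ (1 + c4)) := by
      intro d _
      refine (Pr_exists_le hok S _ (fun i F =>
        H4 d (ctr d c m (l * i)).1 (ctr d c m (l * i)).2 (2 * l) ρ (↑F : Set Edg))).trans ?_
      refine (Finset.sum_le_card_nsmul _ _ _ (hH d)).trans ?_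
      rw [nsmul_eq_mul]
      exact mul_le_mul_of_nonneg_right (card_JJ c m l ρ M hl1 hJK hlM2 d) (by positivity)
    refine (Finset.sum_le_card_nsmul _ _ _ h3).trans ?_
    have h4 : (Finset.univ : Finset Dir).card = 4 := by decide
    rw [h4, nsmul_eq_mul]
    refine le_trans (le_of_eq ?_) hJδ
    rw [Real.rpow_add (by positivity), Real.rpow_one, hM]
    push_cast
    field_simp
    ring
  have step3 : Pr (fun _ => (1/2:ℝ)) S (fun F => ∃ s ∈ (Finset.univ : Finset (Bool × Bool)),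
        Crs (cnr c m s).1 (cnr c m s).2 (ρ + l + 2) (m - 1) (↑F : Set Edg)) ≤ δ / 2 := by
    refine (Pr_exists_le hok S _ (fun s F =>
        Crs (cnr c m s).1 (cnr c m s).2 (ρ + l + 2) (m - 1) (↑F : Set Edg))).trans ?_
    have h3 : ∀ s ∈ (Finset.univ : Finset (Bool × Bool)), Pr (fun _ => (1/2:ℝ)) S (fun F =>
        Crs (cnr c m s).1 (cnr c m s).2 (ρ + l + 2) (m - 1) (↑F : Set Edg)) ≤
        C1 * (8 / (K:ℝ)) ^ c1 := by
      intro s _
      have h1 := (Arm (1/2) (m - 1) (hwin (m - 1)) (ρ + l + 2) (m - 1) (by omega) (by omega) le_rfl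
        (cnr c m s).1 (cnr c m s).2 S).1
      refine h1.trans ?_
      apply mul_le_mul_of_nonneg_left _ hC1.le
      apply Real.rpow_le_rpow (by positivity) _ hc1.le
      have hm1 : (0:ℝ) < ((m - 1 : ℕ) : ℝ) := by
        have : 0 < m - 1 := by omega
        exact_mod_cast this
      rw [div_le_div_iff₀ hm1 hK0]
      have h5 : ((ρ + l + 2) * K : ℕ) ≤ 8 * (m - 1) := by
        have h6 : ρ + l + 2 ≤ 4 * ρ := by omega
        have h7 : (ρ + l + 2) * K ≤ 4 * ρ * K := Nat.mul_le_mul_right _ h6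
        have h8 : 4 * ρ * K = 4 * (ρ * K) := by ring
        rw [h8] at h7
        omega
      exact_mod_cast h5
    refine (Finset.sum_le_card_nsmul _ _ _ h3).trans ?_
    have h4 : (Finset.univ : Finset (Bool × Bool)).card = 4 := by decide
    rw [h4, nsmul_eq_mul]
    refine le_trans (le_of_eq ?_) hKδ
    push_cast
    ring
  linarith

end Pool.Agent.TH55.FA
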